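import Mathlib

/-!
# Points of a set are accumulated at every scale

`dns_pt`: at almost every point of any set of reals the set meets every interval of length `ε r`
in the ball of radius `r`, `r` small.
-/

set_option autoImplicit false

namespace Pool.OWN72

open MeasureTheory Set Filter Topology

/-- **Density points meet small intervals.** -/
theorem dns_pt (A : Set ℝ) : ∀ᵐ g : ℝ, g ∈ A → ∀ ε : ℝ, 0 < ε → ∃ r₀ : ℝ, 0 < r₀ ∧
    ∀ r : ℝ, 0 < r → r < r₀ → ∀ x y : ℝ, g - r ≤ x → x + ε * r ≤ y → y ≤ g + r →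
      ∃ a ∈ A, x < a ∧ a < y := by
  filter_upwards [ae_imp_of_ae_restrict (Besicovitch.ae_tendsto_measure_inter_div volume A)]
    with g hg hgA ε hε
  have h1 := hg hgA
  have h2 : ENNReal.ofReal (1 - ε / 2) < 1 := by
    rw [← ENNReal.ofReal_one]
    exact (ENNReal.ofReal_lt_ofReal_iff one_pos).2 (by linarith)
  have h3 := h1.eventually (lt_mem_nhds h2)
  obtain ⟨r₀, hr₀, h4⟩ := mem_nhdsGT_iff_exists_Ioo_subset.1 h3
  refine ⟨r₀, hr₀, fun r hr hr' x y hx hxy hy => ?_⟩
  by_contra hcon
  push Not at hcon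
  have h5 : ENNReal.ofReal (1 - ε / 2) <
      volume (A ∩ Metric.closedBall g r) / volume (Metric.closedBall g r) := h4 ⟨hr, hr'⟩
  have h6 : volume (A ∩ Metric.closedBall g r) ≤ ENNReal.ofReal (2 * r - (y - x)) := by
    have h7 : A ∩ Metric.closedBall g r ⊆ Metric.closedBall g r \ Ioo x y := by
      intro a ha
      refine ⟨ha.2, fun hb => ?_⟩
      exact absurd hb.2 (not_lt.2 (hcon a ha.1 hb.1))
    refine (measure_mono h7).trans ?_
    have h8 : Ioo x y ⊆ Metric.closedBall g r := by
      intro a ha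
      rw [Real.closedBall_eq_Icc]
      exact ⟨hx.trans ha.1.le, ha.2.le.trans hy⟩
    rw [measure_diff h8 measurableSet_Ioo.nullMeasurableSet (by
      rw [Real.volume_Ioo]
      exact ENNReal.ofReal_ne_top), Real.volume_closedBall, Real.volume_Ioo,
      ← ENNReal.ofReal_sub _ (by nlinarith [mul_pos hε hr])]
  rw [Real.volume_closedBall] at h5
  have h7 : volume (A ∩ Metric.closedBall g r) / ENNReal.ofReal (2 * r) ≤
      ENNReal.ofReal (1 - ε / 2) := by
    refine (ENNReal.div_le_div_right h6 _).trans ?_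
    rw [← ENNReal.ofReal_div_of_pos (by linarith)]
    refine ENNReal.ofReal_le_ofReal ?_
    rw [div_le_iff₀ (by linarith)]
    nlinarith
  exact absurd h5 (not_lt.2 h7)

end Pool.OWN72
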