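import Pool.Agent.H66.D2.Afo
import Pool.Agent.H42.D2.Cg2

/-!
# Affine towers: from the own times to the window

`afo_afd`: the data `AfO` at the own times give the data `AfD` on a large event: the natural
components of the derivatives of the closed gradients are closed polynomials, small at the own times.
-/

set_option autoImplicit false

namespace Pool.AFT

open Finset Real MvPolynomial
open Pool.Agent.H49.Ent Pool.Agent.H32.Dense Pool.STK Pool.KA Pool.KSAT Pool.K2S Pool.PB Pool.S6C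
open Pool.GEN Pool.CHT Pool.CHX Pool.ISO Pool.D2R Pool.D2Z Pool.D2F
open Pool.FLF (Fam.sub)
open Pool.PB.Trl (rt rt_mem t_rt)

variable {m J : ℕ}

/-- The triangular identity. -/
theorem tri_num {l : ℕ} {ν b V : ℕ → ℝ} {a : ℕ → ℕ → ℝ}
    (h : ∀ k < l, ν k = b k + ∑ j ∈ Finset.Ico (k + 1) l, ν j * a j k) :
    ∑ j ∈ range l, ν j * (V j - ∑ k ∈ range j, a j k * V k) = ∑ k ∈ range l, b k * V k := by
  have h1 : ∑ j ∈ range l, ∑ k ∈ range j, ν j * (a j k * V k) =
      ∑ k ∈ range l, ∑ j ∈ Finset.Ico (k + 1) l, ν j * (a j k * V k) := by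
    refine Finset.sum_comm' fun j k => ?_
    simp only [Finset.mem_range, Finset.mem_Ico]
    omega
  have h2 : ∑ j ∈ range l, ν j * (V j - ∑ k ∈ range j, a j k * V k) =
      ∑ j ∈ range l, ν j * V j - ∑ j ∈ range l, ∑ k ∈ range j, ν j * (a j k * V k) := by
    rw [← Finset.sum_sub_distrib]
    refine Finset.sum_congr rfl fun j _ => ?_
    rw [mul_sub, Finset.mul_sum]
  rw [h2, h1, ← Finset.sum_sub_distrib]
  refine Finset.sum_congr rfl fun k hk => ?_
  have h3 : ∑ j ∈ Finset.Ico (k + 1) l, ν j * (a j k * V k) =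
      (∑ j ∈ Finset.Ico (k + 1) l, ν j * a j k) * V k := by
    rw [Finset.sum_mul]
    exact Finset.sum_congr rfl fun j _ => by ring
  rw [h3, h k (Finset.mem_range.1 hk)]
  ring

/-- Triangular systems have solutions. -/
theorem tri_ex (a : ℕ → ℕ → ℝ) (y : ℕ → ℝ) (n : ℕ) :
    ∃ v : ℕ → ℝ, ∀ j < n, v j = ∑ k ∈ range j, a j k * v k + y j := by
  induction n with
  | zero => exact ⟨fun _ => 0, fun j hj => absurd hj (Nat.not_lt_zero j)⟩
  | succ n ih =>
    obtain ⟨v, hv⟩ := ih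
    refine ⟨fun j => if j < n then v j else ∑ k ∈ range n, a n k * v k + y n, fun j hj => ?_⟩
    have h1 : ∀ i ≤ n, ∑ k ∈ range i, a i k * (if k < n then v k else
        ∑ k ∈ range n, a n k * v k + y n) = ∑ k ∈ range i, a i k * v k := fun i hi =>
      Finset.sum_congr rfl fun k hk => by
        rw [Finset.mem_range] at hk
        rw [if_pos (by omega)]
    rcases Nat.lt_or_ge j n with hj' | hj'
    · simp only [if_pos hj']
      rw [h1 j hj'.le]
      exact hv j hj'
    · have hjn : j = n := by omega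
      subst hjn
      simp only [lt_irrefl, if_false]
      rw [h1 j le_rfl]

/-- Vectors with given components. -/
theorem vec_ex {c : ℕ → Fin m} {n : ℕ} (hc : Set.InjOn c (Set.Iio n)) (v : ℕ → ℝ) :
    ∃ V : Option (Fin m) → ℝ, V none = 0 ∧ ∀ j < n, V (some (c j)) = v j := by
  classical
  refine ⟨fun o => match o with
    | none => 0
    | some i => if h : ∃ j, j < n ∧ c j = i then v h.choose else 0, rfl, fun j hj => ?_⟩
  have h : ∃ j', j' < n ∧ c j' = c j := ⟨j, hj, rfl⟩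
  show (if h : ∃ j', j' < n ∧ c j' = c j then v h.choose else 0) = v j
  rw [dif_pos h]
  rw [hc (Set.mem_Iio.2 h.choose_spec.1) (Set.mem_Iio.2 hj) h.choose_spec.2]

/-- The size over the closed gradients. -/
noncomputable def El (c : ℕ → Fin m) (g : ℕ → ℕ) (a : ℕ → ℕ → ℝ) (l : ℕ)
    (V : Option (Fin m) → ℝ) : ℝ :=
  ∑ j ∈ range l, 2 ^ g j * |V (some (c j)) - ∑ k ∈ range j, a j k * V (some (c k))|

theorem El_nonneg (c : ℕ → Fin m) (g : ℕ → ℕ) (a : ℕ → ℕ → ℝ) (l : ℕ)
    (V : Option (Fin m) → ℝ) : 0 ≤ El c g a l V :=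
  Finset.sum_nonneg fun _ _ => by positivity

theorem El_succ (c : ℕ → Fin m) (g : ℕ → ℕ) (a : ℕ → ℕ → ℝ) (l : ℕ)
    (V : Option (Fin m) → ℝ) : El c g a (l + 1) V = El c g a l V +
      2 ^ g l * |V (some (c l)) - ∑ k ∈ range l, a l k * V (some (c k))| := by
  unfold El
  rw [Finset.sum_range_succ]

/-- The two sizes at the own time. -/
theorem El_en {c : ℕ → Fin m} {g : ℕ → ℕ} {w : ℕ} {χ : ℕ → Option (Fin m) → ℝ} {a : ℕ → ℕ → ℝ}
    {n : ℕ} {U : ℝ} (hU : 0 ≤ U) {V : Option (Fin m) → ℝ} (hV : V none = 0)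
    (h : ∀ l < n, |∑ j ∈ range l, a l j * V (some (c j)) - cv (χ l) V| ≤
      U / 2 ^ g l * en c g w χ l V) {l : ℕ} (hl : l ≤ n) :
    El c g a l V ≤ (1 + U) ^ l * en c g w χ l V ∧ en c g w χ l V ≤ (1 + U) ^ l * El c g a l V := by
  induction l with
  | zero =>
    rw [en_zero, hV, abs_zero, mul_zero, mul_zero]
    unfold El
    rw [Finset.sum_range_zero, mul_zero]
    exact ⟨le_rfl, le_rfl⟩
  | succ l ih =>
    obtain ⟨i1, i2⟩ := ih (by omega)
    have h1 := h l (by omega)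
    have pg : (0 : ℝ) < 2 ^ g l := by positivity
    rw [El_succ, en_succ]
    obtain ⟨x, hx⟩ : ∃ x, x = V (some (c l)) := ⟨_, rfl⟩
    obtain ⟨p, hp⟩ : ∃ p, p = ∑ j ∈ range l, a l j * V (some (c j)) := ⟨_, rfl⟩
    obtain ⟨q, hq⟩ : ∃ q, q = cv (χ l) V := ⟨_, rfl⟩
    obtain ⟨e, he⟩ : ∃ e, e = en c g w χ l V := ⟨_, rfl⟩
    obtain ⟨E, hE⟩ : ∃ E, E = El c g a l V := ⟨_, rfl⟩
    rw [← hp, ← hq, ← he] at h1
    rw [← he, ← hE] at i1 i2
    rw [← hx, ← hp, ← hq, ← he, ← hE]
    have e0 : 0 ≤ e := by rw [he]; exact en_nonneg _ _ _ _ _ _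
    have E0 : 0 ≤ E := by rw [hE]; exact El_nonneg _ _ _ _ _
    have h2 : 2 ^ g l * |p - q| ≤ U * e := by
      have := mul_le_mul_of_nonneg_left h1 pg.le
      refine this.trans (le_of_eq ?_)
      field_simp
    have h3 : 2 ^ g l * |x - p| ≤ 2 ^ g l * |x - q| + U * e := by
      have e1 : x - p = (x - q) - (p - q) := by ring
      have := mul_le_mul_of_nonneg_left (abs_sub (x - q) (p - q)) pg.le
      rw [← e1, mul_add] at this
      linarith
    have h4 : 2 ^ g l * |x - q| ≤ 2 ^ g l * |x - p| + U * e := by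
      have e1 : x - q = (x - p) + (p - q) := by ring
      have := mul_le_mul_of_nonneg_left (abs_add_le (x - p) (p - q)) pg.le
      rw [← e1, mul_add] at this
      linarith
    have hQ : (1 : ℝ) ≤ (1 + U) ^ l := one_le_pow₀ (by linarith)
    have hQ' : (1 : ℝ) ≤ (1 + U) ^ (l + 1) := one_le_pow₀ (by linarith)
    have a1 : 0 ≤ 2 ^ g l * |x - q| := by positivity
    have a2 : 0 ≤ 2 ^ g l * |x - p| := by positivity
    constructor
    · have b1 : U * e ≤ U * ((1 + U) ^ l * e) :=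
        mul_le_mul_of_nonneg_left (le_mul_of_one_le_left e0 hQ) hU
      have b2 : 2 ^ g l * |x - q| ≤ (1 + U) ^ (l + 1) * (2 ^ g l * |x - q|) :=
        le_mul_of_one_le_left a1 hQ'
      have b3 : (1 + U) ^ (l + 1) * (e + 2 ^ g l * |x - q|) = (1 + U) ^ l * e +
          U * ((1 + U) ^ l * e) + (1 + U) ^ (l + 1) * (2 ^ g l * |x - q|) := by ring
      rw [b3]
      linarith
    · have b1 : (1 + U) * e ≤ (1 + U) * ((1 + U) ^ l * E) :=
        mul_le_mul_of_nonneg_left i2 (by linarith)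
      have b2 : 2 ^ g l * |x - p| ≤ (1 + U) ^ (l + 1) * (2 ^ g l * |x - p|) :=
        le_mul_of_one_le_left a2 hQ'
      have b3 : (1 + U) ^ (l + 1) * (E + 2 ^ g l * |x - p|) =
          (1 + U) * ((1 + U) ^ l * E) + (1 + U) ^ (l + 1) * (2 ^ g l * |x - p|) := by ring
      rw [b3]
      linarith

/-- **The size moves slowly.** -/
theorem El_mv {c : ℕ → Fin m} {g : ℕ → ℕ} {lam : ℕ → ℕ → Polynomial ℝ}
    {nu : ℕ → ℕ → Polynomial ℝ} {n : ℕ} {M τ₀ ρ x : ℝ} (hM : 0 ≤ M) (hx : 0 ≤ x) (hρ : 0 ≤ ρ)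
    (hxρ : x * ρ ≤ 1)
    (hnu : ∀ l < n, ∀ τ, |τ - τ₀| ≤ ρ → ∀ k < l, |(nu l k).eval τ| ≤
      M * x * (2 ^ g k / 2 ^ g l))
    (hid : ∀ l < n, ∀ τ (V : Option (Fin m) → ℝ),
      ∑ k ∈ range l, (Polynomial.derivative (lam l k)).eval τ * V (some (c k)) =
        ∑ k ∈ range l, (nu l k).eval τ * (V (some (c k)) -
          ∑ i ∈ range k, (lam k i).eval τ * V (some (c i))))
    (V : Option (Fin m) → ℝ) {l : ℕ} (hl : l ≤ n) :
    ∀ τ, |τ - τ₀| ≤ ρ → El c g (fun l k => (lam l k).eval τ) l V ≤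
      (1 + M) ^ l * El c g (fun l k => (lam l k).eval τ₀) l V := by
  -- the derivative
  have hder : ∀ l < n, ∀ τ, |τ - τ₀| ≤ ρ →
      |∑ k ∈ range l, (Polynomial.derivative (lam l k)).eval τ * V (some (c k))| ≤
        M * x / 2 ^ g l * El c g (fun l k => (lam l k).eval τ) l V := by
    intro l hl τ hτ
    rw [hid l hl τ V]
    refine (Finset.abs_sum_le_sum_abs _ _).trans ?_
    unfold El
    rw [Finset.mul_sum]
    refine Finset.sum_le_sum fun k hk => ?_
    rw [abs_mul]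
    have h1 := hnu l hl τ hτ k (Finset.mem_range.1 hk)
    refine (mul_le_mul_of_nonneg_right h1 (abs_nonneg _)).trans (le_of_eq ?_)
    field_simp
  induction l with
  | zero =>
    intro τ _
    unfold El
    rw [Finset.sum_range_zero, Finset.sum_range_zero, mul_zero]
  | succ l ih =>
    intro τ hτ
    have i1 := ih (by omega)
    have pg : (0 : ℝ) < 2 ^ g l := by positivity
    rw [El_succ, El_succ]
    obtain ⟨E, hE⟩ : ∃ E, E = El c g (fun l k => (lam l k).eval τ₀) l V := ⟨_, rfl⟩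
    have E0 : 0 ≤ E := by rw [hE]; exact El_nonneg _ _ _ _ _
    rw [← hE] at i1
    rw [← hE]
    obtain ⟨p, hp⟩ : ∃ p : Polynomial ℝ, p = ∑ k ∈ range l, lam l k *
      Polynomial.C (V (some (c k))) := ⟨_, rfl⟩
    have hpe : ∀ u : ℝ, p.eval u = ∑ k ∈ range l, (lam l k).eval u * V (some (c k)) := by
      intro u
      rw [hp, Polynomial.eval_finsetSum]
      exact Finset.sum_congr rfl fun k _ => by rw [Polynomial.eval_mul, Polynomial.eval_C]
    have hpd : ∀ u : ℝ, (Polynomial.derivative p).eval u =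
        ∑ k ∈ range l, (Polynomial.derivative (lam l k)).eval u * V (some (c k)) := by
      intro u
      rw [hp, Polynomial.derivative_sum, Polynomial.eval_finsetSum]
      refine Finset.sum_congr rfl fun k _ => ?_
      rw [Polynomial.derivative_mul, Polynomial.derivative_C, mul_zero, add_zero,
        Polynomial.eval_mul, Polynomial.eval_C]
    have h1 : |p.eval τ - p.eval τ₀| ≤ M * x / 2 ^ g l * ((1 + M) ^ l * E) * |τ - τ₀| := by
      refine Pool.D2S.pol_mv p fun u hu => ?_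
      rw [hpd]
      refine (hder l (by omega) u (hu.trans hτ)).trans ?_
      exact mul_le_mul_of_nonneg_left (i1 u (hu.trans hτ)) (by positivity)
    have hQ : (1 : ℝ) ≤ (1 + M) ^ l := one_le_pow₀ (by linarith)
    have hQ' : (1 : ℝ) ≤ (1 + M) ^ (l + 1) := one_le_pow₀ (by linarith)
    have h2 : 2 ^ g l * |p.eval τ - p.eval τ₀| ≤ M * ((1 + M) ^ l * E) := by
      have h3 := mul_le_mul_of_nonneg_left h1 pg.le
      refine h3.trans ?_
      have e1 : 2 ^ g l * (M * x / 2 ^ g l * ((1 + M) ^ l * E) * |τ - τ₀|) =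
          M * ((1 + M) ^ l * E) * (x * |τ - τ₀|) := by field_simp
      rw [e1]
      have h4 : x * |τ - τ₀| ≤ 1 := (mul_le_mul_of_nonneg_left hτ hx).trans hxρ
      have h5 : 0 ≤ M * ((1 + M) ^ l * E) := by positivity
      calc M * ((1 + M) ^ l * E) * (x * |τ - τ₀|) ≤ M * ((1 + M) ^ l * E) * 1 :=
            mul_le_mul_of_nonneg_left h4 h5
        _ = _ := mul_one _
    simp only [← hpe]
    obtain ⟨y, hy⟩ : ∃ y, y = V (some (c l)) := ⟨_, rfl⟩
    rw [← hy]
    have h3 : 2 ^ g l * |y - p.eval τ| ≤ 2 ^ g l * |y - p.eval τ₀| + M * ((1 + M) ^ l * E) := by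
      have e1 : y - p.eval τ = (y - p.eval τ₀) - (p.eval τ - p.eval τ₀) := by ring
      have := mul_le_mul_of_nonneg_left (abs_sub (y - p.eval τ₀) (p.eval τ - p.eval τ₀)) pg.le
      rw [← e1, mul_add] at this
      linarith
    have a1 : 0 ≤ 2 ^ g l * |y - p.eval τ₀| := by positivity
    have b2 : 2 ^ g l * |y - p.eval τ₀| ≤ (1 + M) ^ (l + 1) * (2 ^ g l * |y - p.eval τ₀|) :=
      le_mul_of_one_le_left a1 hQ'
    have b3 : (1 + M) ^ (l + 1) * (E + 2 ^ g l * |y - p.eval τ₀|) = (1 + M) ^ l * E +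
        M * ((1 + M) ^ l * E) + (1 + M) ^ (l + 1) * (2 ^ g l * |y - p.eval τ₀|) := by ring
    rw [b3]
    have := i1 τ hτ
    linarith

/-- **From the own times to the window.** -/
theorem afo_afd (m D n : ℕ) : ∃ C : ℕ, 1 ≤ C ∧ ∀ {J : ℕ} {F : Fam m J} {c : ℕ → Fin m}
    {w a e k : ℕ} {g : ℕ → ℕ} {θ : ℝ} {B : F.Ω → Prop}
    {St : PtT F → ℕ → Option (Fin m) → ℝ} {lam : LnT F → ℕ → ℕ → Polynomial ℝ}
    (hB : 0 < Pe F.p B), Set.InjOn c (Set.Iio n) → w ≤ a → a ≤ J → 0 ≤ θ →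
    (Fam.sub F B hB).Tm θ → C * (θ + 1) ≤ ((J : ℝ) - w) * Real.log 2 →
    Real.exp (C * (θ + 1)) ≤ 2 ^ k → AfO F c n D w a e g (2 ^ k) B St lam →
    ∃ B' : F.Ω → Prop, Sub B' B ∧ Pe F.p B / 2 ≤ Pe F.p B' ∧
      AfD F c n D w a e g (2 ^ (C * (k + 1))) B' St (ab w lam) := by
  classical
  obtain ⟨C₁, hC₁, hrem⟩ := rem_fam m (D + D * n) (n * n)
  obtain ⟨C₂, hC₂, hext⟩ := pol_ext (D + D * n)
  obtain ⟨C₄, hC₄⟩ := pow_unbounded_of_one_lt C₂ (one_lt_two (α := ℝ))
  obtain ⟨E, hE⟩ : ∃ E : ℕ, E = C₄ + 2 + n := ⟨_, rfl⟩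
  refine ⟨⌈C₁⌉₊ + E + E * n + n + 1, by omega, ?_⟩
  obtain ⟨C, hC⟩ : ∃ C : ℕ, C = ⌈C₁⌉₊ + E + E * n + n + 1 := ⟨_, rfl⟩
  rw [← hC]
  intro J F c w a e k g θ B St lam hB hc hwa ha hθ hTm hCJ hexp h
  have hCC : C₁ ≤ C := by
    refine (Nat.le_ceil C₁).trans ?_
    have : ⌈C₁⌉₊ ≤ C := by omega
    exact_mod_cast this
  have hθ1 : 0 ≤ θ + 1 := by linarith
  have hw : w ≤ J := hwa.trans ha
  have hexp1 : Real.exp (C₁ * (θ + 1)) ≤ 2 ^ k := (Real.exp_le_exp.2
    (mul_le_mul_of_nonneg_right hCC hθ1)).trans hexp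
  obtain ⟨U, hU⟩ : ∃ U : ℝ, U = 2 ^ k := ⟨_, rfl⟩
  have hU0 : 0 ≤ U := by rw [hU]; positivity
  have hU1 : 1 ≤ U := by rw [hU]; exact one_le_pow₀ (by norm_num)
  rw [← hU] at h hexp1
  have hnu := fun l : ℕ => tri_pol (ι := LnT F) l D D
    (fun s k => Polynomial.derivative (lam s l k)) (fun s j k => lam s j k)
    (fun s k => (Polynomial.natDegree_derivative_le _).trans
      ((Nat.sub_le _ _).trans (h.deg s l k))) (fun s j k => h.deg s j k)
  choose ν hν1 hν2 using hnu
  have hid : ∀ (s : LnT F) (l : ℕ) (τ : ℝ) (V : Option (Fin m) → ℝ),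
      ∑ k ∈ range l, (Polynomial.derivative (lam s l k)).eval τ * V (some (c k)) =
        ∑ k ∈ range l, (ν l s k).eval τ * (V (some (c k)) -
          ∑ i ∈ range k, (lam s k i).eval τ * V (some (c i))) := by
    intro s l τ V
    refine (tri_num (l := l) (ν := fun k => (ν l s k).eval τ)
      (b := fun k => (Polynomial.derivative (lam s l k)).eval τ)
      (V := fun k => V (some (c k))) (a := fun j k => (lam s j k).eval τ) fun k hk => ?_).symm
    have h1 := congrArg (fun q => Polynomial.eval τ q) (hν2 l s k hk)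
    simp only [Polynomial.eval_add, Polynomial.eval_finsetSum, Polynomial.eval_mul] at h1
    exact h1
  -- the two sizes
  have hEl : ∀ ω, B ω → ∀ l ≤ n, ∀ V : Option (Fin m) → ℝ, V none = 0 →
      El c g (fun l k => (lam (slam F w ω) l k).eval (rt F w ω)) l V ≤
        (1 + U) ^ n * en c g a (St (ptr F J ω)) l V ∧
      en c g a (St (ptr F J ω)) l V ≤
        (1 + U) ^ n * El c g (fun l k => (lam (slam F w ω) l k).eval (rt F w ω)) l V := by
    intro ω hω l hl V hV
    obtain ⟨i1, i2⟩ := El_en (c := c) (g := g) (w := a) (χ := St (ptr F J ω))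
      (a := fun l k => (lam (slam F w ω) l k).eval (rt F w ω)) (n := n) hU0 hV
      (fun l hl => h.spa ω hω l hl V hV) hl
    have hQ : (1 + U) ^ l ≤ (1 + U) ^ n := pow_le_pow_right₀ (by linarith) hl
    exact ⟨i1.trans (mul_le_mul_of_nonneg_right hQ (en_nonneg _ _ _ _ _ _)),
      i2.trans (mul_le_mul_of_nonneg_right hQ (El_nonneg _ _ _ _ _))⟩
  -- the natural components at the own times
  obtain ⟨x, hx⟩ : ∃ x : ℝ, x = 2 ^ (a - w) := ⟨_, rfl⟩
  have hx0 : 0 < x := by rw [hx]; positivity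
  obtain ⟨M₀, hM₀⟩ : ∃ M₀ : ℝ, M₀ = U * (1 + U) ^ n := ⟨_, rfl⟩
  have hM₀0 : 0 < M₀ := by rw [hM₀]; positivity
  have hνx : ∀ ω, B ω → ∀ l < n, ∀ k < l, |(ν l (slam F w ω) k).eval (rt F w ω)| ≤
      M₀ * x * (2 ^ g k / 2 ^ g l) := by
    intro ω hω l hl k hk
    obtain ⟨v, hv⟩ := tri_ex (fun j i => (lam (slam F w ω) j i).eval (rt F w ω))
      (fun j => if j = k then 1 else 0) n
    obtain ⟨V, hV0, hV⟩ := vec_ex hc v
    have hVj : ∀ j < n, V (some (c j)) - ∑ i ∈ range j,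
        (lam (slam F w ω) j i).eval (rt F w ω) * V (some (c i)) = if j = k then 1 else 0 := by
      intro j hj
      have h1 : ∑ i ∈ range j, (lam (slam F w ω) j i).eval (rt F w ω) * V (some (c i)) =
          ∑ i ∈ range j, (lam (slam F w ω) j i).eval (rt F w ω) * v i :=
        Finset.sum_congr rfl fun i hi => by
          rw [hV i ((Finset.mem_range.1 hi).trans hj)]
      rw [h1, hV j hj, hv j hj, add_sub_cancel_left]
    have h1 := h.der ω hω l hl V hV0
    rw [hid, Finset.sum_eq_single k, hVj k (hk.trans hl), if_pos rfl, mul_one] at h1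
    · refine h1.trans ?_
      have h2 := (hEl ω hω l hl.le V hV0).2
      have h3 : El c g (fun l k => (lam (slam F w ω) l k).eval (rt F w ω)) l V = 2 ^ g k := by
        unfold El
        rw [Finset.sum_eq_single k]
        · rw [hVj k (hk.trans hl), if_pos rfl, abs_one, mul_one]
        · intro j hj hjk
          rw [hVj j ((Finset.mem_range.1 hj).trans hl), if_neg hjk, abs_zero, mul_zero]
        · intro h'
          exact absurd (Finset.mem_range.2 hk) h'
      rw [h3] at h2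
      rw [← hx]
      refine (mul_le_mul_of_nonneg_left h2 (by positivity)).trans (le_of_eq ?_)
      rw [hM₀]
      ring
    · intro j hj hjk
      rw [hVj j ((Finset.mem_range.1 hj).trans hl), if_neg hjk, mul_zero]
    · intro h'
      exact absurd (Finset.mem_range.2 hk) h'
  -- on the window
  obtain ⟨B', k1, k2, k3⟩ := hrem J F B hB w
    (fun i s => if i % n < i / n then ν (i / n) s (i % n) else 0)
    (fun i => M₀ * x * (2 ^ g (i % n) / 2 ^ g (i / n))) θ hw
    (fun i hi s => by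
      show (if i % n < i / n then ν (i / n) s (i % n) else 0).natDegree ≤ _
      split_ifs with h1
      · refine (hν1 (i / n) s (i % n)).trans ?_
        have h2 : i / n < n := Nat.div_lt_of_lt_mul hi
        exact Nat.add_le_add_left (Nat.mul_le_mul_left D h2.le) D
      · rw [Polynomial.natDegree_zero]
        exact Nat.zero_le _)
    (fun i _ => by positivity) hθ hTm
    (le_trans (mul_le_mul_of_nonneg_right hCC hθ1) hCJ) (fun ω hω i hi => by
      show |(if i % n < i / n then ν (i / n) (slam F w ω) (i % n) else 0).eval (rt F w ω)| ≤ _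
      split_ifs with h1
      · exact hνx ω hω (i / n) (Nat.div_lt_of_lt_mul hi) (i % n) h1
      · rw [Polynomial.eval_zero, abs_zero]
        positivity)
  obtain ⟨M, hM⟩ : ∃ M : ℝ, M = C₂ * U * M₀ := ⟨_, rfl⟩
  have hM0 : 0 ≤ M := by rw [hM]; positivity
  have hνw : ∀ ω, B' ω → ∀ l < n, ∀ τ : ℝ, |τ - rt F w ω| ≤ 1 / x → ∀ k < l,
      |(ν l (slam F w ω) k).eval τ| ≤ M * x * (2 ^ g k / 2 ^ g l) := by
    intro ω hω l hl τ hτ k hk
    have hkn : k < n := hk.trans hl
    have hn0 : 0 < n := by omega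
    have e1 : (l * n + k) / n = l := by
      rw [mul_comm, Nat.mul_add_div hn0, Nat.div_eq_of_lt hkn, add_zero]
    have e2 : (l * n + k) % n = k := by
      rw [mul_comm, Nat.mul_add_mod, Nat.mod_eq_of_lt hkn]
    have hi : l * n + k < n * n := by nlinarith
    have h1 := k3 ω hω (l * n + k) hi
    rw [e1, e2, if_pos hk] at h1
    have hτ2 : |τ| ≤ 2 := by
      have h2 := rt_mem F w ω
      have h3 : 1 / x ≤ 1 := by
        rw [div_le_one hx0, hx]
        exact one_le_pow₀ (by norm_num)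
      have h4 := hτ.trans h3
      rw [abs_le] at h4 ⊢
      constructor <;> linarith [h2.1, h2.2]
    have h2 := hext _ _ ((hν1 l (slam F w ω) k).trans
      (Nat.add_le_add_left (Nat.mul_le_mul_left D hl.le) D)) h1 τ hτ2
    refine h2.trans ?_
    have h3 : 0 ≤ M₀ * x * (2 ^ g k / 2 ^ g l) := by positivity
    calc C₂ * (Real.exp (C₁ * (θ + 1)) * (M₀ * x * (2 ^ g k / 2 ^ g l))) ≤
          C₂ * (U * (M₀ * x * (2 ^ g k / 2 ^ g l))) :=
          mul_le_mul_of_nonneg_left (mul_le_mul_of_nonneg_right hexp1 h3) (by linarith)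
      _ = M * x * (2 ^ g k / 2 ^ g l) := by rw [hM]; ring
  -- the numbers
  obtain ⟨P, hP⟩ : ∃ P : ℝ, P = M * ((1 + M) ^ n * (1 + U) ^ n) := ⟨_, rfl⟩
  have hP0 : 0 ≤ P := by rw [hP]; positivity
  have hPC : P ≤ 2 ^ (C * (k + 1)) := by
    have a1 : 1 + U ≤ 2 ^ (k + 1) := by
      rw [pow_succ, ← hU]
      linarith
    have a2 : (1 + U) ^ n ≤ 2 ^ ((k + 1) * n) := by
      rw [pow_mul]
      exact pow_le_pow_left₀ (by linarith) a1 n
    have a3 : M ≤ 2 ^ (C₄ + k + (k + (k + 1) * n)) := by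
      rw [hM, hM₀, pow_add _ (C₄ + k), pow_add _ C₄, pow_add _ k ((k + 1) * n), ← hU]
      refine mul_le_mul (mul_le_mul_of_nonneg_right hC₄.le hU0)
        (mul_le_mul_of_nonneg_left a2 hU0) (by positivity) (by positivity)
    have a4 : C₄ + k + (k + (k + 1) * n) + 1 ≤ E * (k + 1) := by
      rw [hE]
      have : C₄ ≤ C₄ * (k + 1) := Nat.le_mul_of_pos_right _ (Nat.succ_pos k)
      nlinarith
    have a5 : 1 + M ≤ 2 ^ (E * (k + 1)) := by
      have b1 : (1 : ℝ) ≤ 2 ^ (C₄ + k + (k + (k + 1) * n)) := one_le_pow₀ (by norm_num)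
      calc 1 + M ≤ 2 ^ (C₄ + k + (k + (k + 1) * n) + 1) := by rw [pow_succ]; linarith
        _ ≤ _ := pow_le_pow_right₀ (by norm_num) a4
    have a6 : M ≤ 2 ^ (E * (k + 1)) := by linarith
    have a7 : (1 + M) ^ n ≤ 2 ^ (E * (k + 1) * n) := by
      rw [pow_mul]
      exact pow_le_pow_left₀ (by linarith) a5 n
    rw [hP]
    refine (mul_le_mul a6 (mul_le_mul a7 a2 (by positivity) (by positivity)) (by positivity)
      (by positivity)).trans ?_
    rw [← pow_add, ← pow_add]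
    refine pow_le_pow_right₀ (by norm_num) ?_
    rw [hC]
    have e3 : (⌈C₁⌉₊ + E + E * n + n + 1) * (k + 1) = ⌈C₁⌉₊ * (k + 1) + (k + 1) +
        (E * (k + 1) + (E * (k + 1) * n + (k + 1) * n)) := by ring
    rw [e3]
    exact Nat.le_add_left _ _
  have hUC : U ≤ 2 ^ (C * (k + 1)) := by
    rw [hU]
    refine pow_le_pow_right₀ (by norm_num) ?_
    have : k + 1 ≤ C * (k + 1) := Nat.le_mul_of_pos_left _ (by omega)
    omega
  refine ⟨B', k1, k2, h.dep, fun s l j => ab_deg w lam s l j (h.deg s l j),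
    fun ω hω => h.lip ω (k1 ω hω), fun ω hω l hl => ?_, fun ω hω l hl V hV => ?_,
    fun ω hω l hl t ht V hV => ?_⟩
  · exact (h.vel ω (k1 ω hω) l hl).trans (mul_le_mul_of_nonneg_right hUC (by positivity))
  · have h1 := h.spa ω (k1 ω hω) l hl V hV
    have e1 : ∀ j, (ab w lam (slam F w ω) l j).eval (F.t ω) =
        (lam (slam F w ω) l j).eval (rt F w ω) := by
      intro j
      rw [ab_eval, ab_rt F hw ω]
    simp only [e1]
    refine h1.trans (mul_le_mul_of_nonneg_right ?_ (en_nonneg _ _ _ _ _ _))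
    exact div_le_div_of_nonneg_right hUC (by positivity)
  · have hωB := k1 ω hω
    obtain ⟨τ, hτ⟩ : ∃ τ : ℝ, τ = 2 ^ w * t - ((slam F w ω).2.2 : ℝ) := ⟨_, rfl⟩
    have e1 : ∀ j, (Polynomial.derivative (ab w lam (slam F w ω) l j)).eval t =
        2 ^ w * (Polynomial.derivative (lam (slam F w ω) l j)).eval τ := by
      intro j
      rw [ab_der, ← hτ]
    simp only [e1]
    have e2 : ∑ j ∈ range l, 2 ^ w * (Polynomial.derivative (lam (slam F w ω) l j)).eval τ *
        V (some (c j)) = 2 ^ w * ∑ j ∈ range l,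
          (Polynomial.derivative (lam (slam F w ω) l j)).eval τ * V (some (c j)) := by
      rw [Finset.mul_sum]
      exact Finset.sum_congr rfl fun j _ => by ring
    rw [e2, abs_mul, abs_of_pos (by positivity : (0 : ℝ) < 2 ^ w)]
    have h2a : (2 : ℝ) ^ a = 2 ^ w * x := by
      rw [hx, ← pow_add]
      congr 1
      omega
    have hτr : |τ - rt F w ω| ≤ 1 / x := by
      have e3 : τ - rt F w ω = 2 ^ w * (t - F.t ω) := by
        rw [hτ, ← ab_rt F hw ω]
        ring
      rw [e3, abs_mul, abs_of_pos (by positivity : (0 : ℝ) < 2 ^ w)]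
      have h3 := mul_le_mul_of_nonneg_left ht (by positivity : (0 : ℝ) ≤ 2 ^ w)
      refine h3.trans (le_of_eq ?_)
      rw [h2a]
      field_simp
    have h3 : |∑ j ∈ range l, (Polynomial.derivative (lam (slam F w ω) l j)).eval τ *
        V (some (c j))| ≤ M * x / 2 ^ g l *
          El c g (fun l k => (lam (slam F w ω) l k).eval τ) l V := by
      rw [hid]
      refine (Finset.abs_sum_le_sum_abs _ _).trans ?_
      unfold El
      rw [Finset.mul_sum]
      refine Finset.sum_le_sum fun k hk => ?_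
      rw [abs_mul]
      have h1 := hνw ω hω l hl τ hτr k (Finset.mem_range.1 hk)
      refine (mul_le_mul_of_nonneg_right h1 (abs_nonneg _)).trans (le_of_eq ?_)
      field_simp
    have h4 := El_mv (c := c) (g := g) (lam := lam (slam F w ω))
      (nu := fun l k => ν l (slam F w ω) k) (n := n) (M := M) (τ₀ := rt F w ω) (ρ := 1 / x)
      (x := x) hM0 hx0.le (by positivity) (by rw [mul_one_div, div_self hx0.ne'])
      (fun l hl τ hτ k hk => hνw ω hω l hl τ hτ k hk)
      (fun l _ τ V => hid (slam F w ω) l τ V) V hl.le τ hτr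
    have h5 := (hEl ω hωB l hl.le V hV).1
    have h6 : (1 + M) ^ l ≤ (1 + M) ^ n := pow_le_pow_right₀ (by linarith) hl.le
    obtain ⟨e, he⟩ : ∃ e, e = en c g a (St (ptr F J ω)) l V := ⟨_, rfl⟩
    have e0 : 0 ≤ e := by rw [he]; exact en_nonneg _ _ _ _ _ _
    rw [← he] at h5 ⊢
    have h7 : El c g (fun l k => (lam (slam F w ω) l k).eval τ) l V ≤
        (1 + M) ^ n * ((1 + U) ^ n * e) :=
      h4.trans (mul_le_mul h6 h5 (El_nonneg _ _ _ _ _) (by positivity))
    have h8 := h3.trans (mul_le_mul_of_nonneg_left h7 (by positivity))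
    have h9 := mul_le_mul_of_nonneg_left h8 (by positivity : (0 : ℝ) ≤ 2 ^ w)
    refine h9.trans ?_
    have e4 : 2 ^ w * (M * x / 2 ^ g l * ((1 + M) ^ n * ((1 + U) ^ n * e))) =
        P * 2 ^ a / 2 ^ g l * e := by
      rw [hP, h2a]
      ring
    rw [e4]
    refine mul_le_mul_of_nonneg_right ?_ e0
    exact div_le_div_of_nonneg_right (mul_le_mul_of_nonneg_right hPC (by positivity))
      (by positivity)

end Pool.AFT
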